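import Mathlib
import Pool.Agent.KS6_57.CW.Kinds
import Pool.Graph.R_pool_sql_team_seeded_843ab51a.Results.MP_21a028_co.DomBoundedIff

set_option autoImplicit false

/-! Clique-width and the domatic number: the thresholds 3, 4 and 5. -/

namespace Pool.Agent.Results.MP_21a028_co.ExactlyTwo

open Pool.Agent.H175R2 Pool.Agent.KS6_57.CW
open Pool.Agent.Results.MP_21a028_co.DomBoundedIff

theorem attained {V : Type} [Finite V] [Nonempty V] (G : SimpleGraph V) :
    HasDomaticPartition G (domaticNumber G) := by
  apply Nat.sSup_mem (s := {k | HasDomaticPartition G k})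
  · refine ⟨1, fun _ => 0, ?_⟩
    intro i v
    exact ⟨v, Subsingleton.elim _ _, Or.inl rfl⟩
  · exact ⟨Nat.card V, fun _ hk => le_card hk⟩

/-- A graph without isolated vertices has two disjoint dominating sets (Ore). -/
theorem two_le {V : Type} [Finite V] [Nonempty V] (G : SimpleGraph V)
    (h : ∀ v, 1 ≤ (G.neighborSet v).ncard) : 2 ≤ domaticNumber G := by
  classical
  apply le_domaticNumber
  obtain ⟨S, hS⟩ := (Set.toFinite {S : Set V | G.IsIndepSet S}).exists_maximal
    ⟨∅, by simp [SimpleGraph.IsIndepSet]⟩
  refine ⟨fun v => if v ∈ S then 0 else 1, ?_⟩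
  intro i v
  have hnb : ∃ u, G.Adj v u := by
    have h1 : (G.neighborSet v).Nonempty := by
      rw [← Set.ncard_pos (Set.toFinite _)]
      exact h v
    exact h1
  fin_cases i
  · -- `S` dominates
    by_cases hv : v ∈ S
    · exact ⟨v, by simp [hv], Or.inl rfl⟩
    · by_contra hc
      push Not at hc
      have hno : ∀ u ∈ S, ¬ G.Adj v u := by
        intro u hu hvu
        exact (hc u (by simp [hu])).2 hvu
      have hins : G.IsIndepSet (insert v S) := by
        intro a ha b hb hab hadj
        rcases ha with rfl | ha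
        · rcases hb with rfl | hb
          · exact hab rfl
          · exact hno b hb hadj
        · rcases hb with rfl | hb
          · exact hno a ha hadj.symm
          · exact hS.prop ha hb hab hadj
      exact hv (hS.le_of_ge hins (Set.subset_insert v S) (Set.mem_insert v S))
  · by_cases hv : v ∈ S
    · obtain ⟨u, hu⟩ := hnb
      refine ⟨u, ?_, Or.inr hu⟩
      have : u ∉ S := fun hus => hS.prop hv hus (G.ne_of_adj hu) hu
      simp [this]
    · exact ⟨v, by simp [hv], Or.inl rfl⟩

/-- **Clique-width and domatic number.**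
(1) The graphs of clique-width at most `t` are DOM-bounded if and only if `t ≤ 3`;
(2) quantitatively, clique-width at most `3` and all degrees above `26 c² + 12 c` give `c` disjoint
total dominating sets.
(3) For every `q ≥ 1` and `δ` there is a graph of clique-width at most `q + 2` and minimum degree
at least `δ` such that in every colouring with `q` colours some vertex sees only one colour in its
neighbourhood.
(4) For `q = 2`: there are graphs of clique-width at most `4` and arbitrarily large minimum degree
without two disjoint total dominating sets and with domatic number at most `3`.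
(5) For `q = 3`: there are graphs of clique-width at most `5` and arbitrarily large minimum degree
with domatic number exactly `2`; (6) this is the least possible value. -/
theorem result :
    (∀ t : ℕ, DomBounded (fun _ G => cliqueWidth G ≤ t) ↔ t ≤ 3) ∧
    (∀ (c : ℕ), 0 < c → ∀ (V : Type) [Finite V] [Nonempty V] (G : SimpleGraph V),
      cliqueWidth G ≤ 3 → (∀ v, 26 * c ^ 2 + 12 * c < (G.neighborSet v).ncard) →
      ∃ f : V → Fin c, ∀ i v, ∃ w, f w = i ∧ G.Adj v w) ∧
    (∀ q δ : ℕ, 0 < q → ∃ (V : Type) (G : SimpleGraph V), Finite V ∧ Nonempty V ∧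
      cliqueWidth G ≤ q + 2 ∧ (∀ v, δ ≤ (G.neighborSet v).ncard) ∧
      ∀ f : V → Fin q, ∃ v i, ∀ u, G.Adj v u → f u = i) ∧
    (∀ δ : ℕ, ∃ (V : Type) (G : SimpleGraph V), Finite V ∧ Nonempty V ∧ cliqueWidth G ≤ 4 ∧
      (∀ v, δ ≤ (G.neighborSet v).ncard) ∧ domaticNumber G ≤ 3 ∧
      ¬ ∃ f : V → Fin 2, ∀ i v, ∃ w, f w = i ∧ G.Adj v w) ∧
    (∀ δ : ℕ, ∃ (V : Type) (G : SimpleGraph V), Finite V ∧ Nonempty V ∧ cliqueWidth G ≤ 5 ∧
      (∀ v, δ ≤ (G.neighborSet v).ncard) ∧ domaticNumber G = 2) ∧
    (∀ (V : Type) [Finite V] [Nonempty V] (G : SimpleGraph V),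
      (∀ v, 1 ≤ (G.neighborSet v).ncard) → 2 ≤ domaticNumber G) := by
  refine ⟨DomBoundedIff.result.1, DomBoundedIff.result.2.1, ?_, ?_, ?_, ?_⟩
  · intro q δ hq
    obtain ⟨V, G, hV, hne, hcw, hdeg, hcol⟩ := exists_mono q δ hq
    exact ⟨V, G, hV, hne, Nat.sInf_le hcw, hdeg, hcol⟩
  · intro δ
    obtain ⟨V, G, hV, hne, hcw, hdeg, hcol⟩ := exists_mono 2 (δ + 1) (by norm_num)
    refine ⟨V, G, hV, hne, Nat.sInf_le hcw, fun v => (Nat.le_succ δ).trans (hdeg v), ?_, ?_⟩
    · by_contra hcon
      obtain ⟨f, hf⟩ := mono (k := domaticNumber G) (m := 4) (by norm_num) (by omega) (attained G)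
      obtain ⟨v, i, hv⟩ := hcol (fun u => if (f u).val < 2 then 0 else 1)
      fin_cases i
      · have key : ∀ j : Fin 4, 2 ≤ j.val → f v = j := by
          intro j hj
          obtain ⟨w, hw, hw2⟩ := hf j v
          rcases hw2 with rfl | hw2
          · exact hw
          · have h1 := hv w hw2
            rw [hw] at h1
            simp [Nat.not_lt.2 hj] at h1
        have := (key 2 (by decide)).symm.trans (key 3 (by decide))
        exact absurd this (by decide)
      · have key : ∀ j : Fin 4, j.val < 2 → f v = j := by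
          intro j hj
          obtain ⟨w, hw, hw2⟩ := hf j v
          rcases hw2 with rfl | hw2
          · exact hw
          · have h1 := hv w hw2
            rw [hw] at h1
            simp [hj] at h1
        have := (key 0 (by decide)).symm.trans (key 1 (by decide))
        exact absurd this (by decide)
    · rintro ⟨f, hf⟩
      obtain ⟨v, i, hv⟩ := hcol f
      have : ∃ j : Fin 2, j ≠ i := by
        revert i
        intro i _
        fin_cases i
        · exact ⟨1, by decide⟩
        · exact ⟨0, by decide⟩
      obtain ⟨j, hj⟩ := this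
      obtain ⟨w, hw, hw2⟩ := hf j v
      exact hj (hw.symm.trans (hv w hw2))
  · intro δ
    obtain ⟨V, G, hV, hne, hcw, hdeg, hcol⟩ := exists_mono 3 (δ + 1) (by norm_num)
    refine ⟨V, G, hV, hne, Nat.sInf_le hcw, fun v => (Nat.le_succ δ).trans (hdeg v), ?_⟩
    apply le_antisymm
    · by_contra hcon
      obtain ⟨f, hf⟩ := mono (k := domaticNumber G) (m := 3) (by norm_num) (by omega) (attained G)
      obtain ⟨v, i, hv⟩ := hcol f
      have key : ∀ j : Fin 3, j ≠ i → f v = j := by
        intro j hj
        obtain ⟨w, hw, hw2⟩ := hf j v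
        rcases hw2 with rfl | hw2
        · exact hw
        · exact absurd (hw.symm.trans (hv w hw2)) hj
      have h3 : ∀ i : Fin 3, ∃ a b : Fin 3, a ≠ i ∧ b ≠ i ∧ a ≠ b := by decide
      obtain ⟨a, b, ha, hb, hab⟩ := h3 i
      exact hab ((key a ha).symm.trans (key b hb))
    · exact two_le G (fun v => (Nat.le_add_left 1 δ).trans (hdeg v))
  · intro V _ _ G hG
    exact two_le G hG

end Pool.Agent.Results.MP_21a028_co.ExactlyTwo
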